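import Pool.Agent.Helper40_ZOL.Graded
import Pool.Agent.Helper40_ZOL.Kit

/-!
# Squad VTP (MP_a7acc9_gt): gr is a polynomial ring over a subgroup, one generator in each degree

Model of squad ZOL (`Pool.Agent.Helper40_ZOL.Defs`).  Definitions.

* `PP`: a finite sum attached to a finite set `V` of crossings with signs and an interlacement
  relation.  `PW w` is this sum for a word `w`, with `q = 1 + X`: the coefficient `p_0` (power `0`
  of `z`) of the HOMFLY polynomial, written in the variable `q = a ^ 2`.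
* `tw N`: the twist knot with `N` full twists and an antiparallel clasp.
* `st`, `ee`: the exponents of the product expansion `f = prod (1 + X ^ m) ^ (e_m)`.
-/

set_option autoImplicit false

namespace Pool.Agent.VTP

open Finset Pool.Agent.ZOL

/-! ### The sum `PP` -/

section PP

variable {R : Type} [CommRing R]

/-- A set of crossings is pairwise not interlaced. -/
def NI (i : ℕ → ℕ → Prop) (S : Finset ℕ) : Prop := ∀ c ∈ S, ∀ d ∈ S, ¬ i c d

open Classical in
/-- The exponent: the sum of `σ d` over the crossings `d` outside `S` which are interlaced with no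
element of `S`, minus the sum of `σ c` over `S`, minus the writhe. -/
noncomputable def NN (V : Finset ℕ) (σ s : ℕ → ℤ) (i : ℕ → ℕ → Prop) (S : Finset ℕ) : ℤ :=
  (∑ d ∈ V.filter (fun d => d ∉ S ∧ ∀ c ∈ S, ¬ i c d), σ d) - (∑ c ∈ S, σ c) - ∑ d ∈ V, s d

/-- The weight of a smoothed crossing; `s c = σ c` means that the first passage is over. -/
def xx (q : ℤ → R) (σ s : ℕ → ℤ) (c : ℕ) : R := if s c = σ c then 0 else 1 - q (σ c)

open Classical in
/-- The state sum. -/
noncomputable def PP (q : ℤ → R) (V : Finset ℕ) (σ s : ℕ → ℤ) (i : ℕ → ℕ → Prop) : R :=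
  ∑ S ∈ V.powerset.filter (fun S => NI i S), (∏ c ∈ S, xx q σ s c) * q (NN V σ s i S / 2)

/-- `q` is the family of the powers of a unit. -/
def IsExp (q : ℤ → R) : Prop := q 0 = 1 ∧ ∀ m n : ℤ, q (m + n) = q m * q n

end PP

/-! ### Words -/

/-- The first letter with label `d`. -/
def fstL (w : Word) (d : ℕ) : Letter :=
  (w.find? (fun l => decide (l.1 = d))).getD (d, true, true)

/-- The side of the first passage of `d`, as a sign. -/
def sg (w : Word) (d : ℕ) : ℤ := eps ((fstL w d).1, (fstL w d).2.1)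

/-- The sign of the crossing `d`. -/
def sn (w : Word) (d : ℕ) : ℤ := sgn (fstL w d)

/-- The crossings `c` and `d` are interlaced. -/
def il (w : Word) (c d : ℕ) : Prop :=
  (sub {c, d} w).map Prod.fst = [c, d, c, d] ∨ (sub {c, d} w).map Prod.fst = [d, c, d, c]

/-- The binomial series `(1 + X) ^ n`. -/
noncomputable def qq (n : ℤ) : PowerSeries ℤ := PowerSeries.mk (fun k => Ring.choose n k)

/-- The coefficient `p_0` of the HOMFLY polynomial of a word. -/
noncomputable def PW (w : Word) : PowerSeries ℤ := PP qq (labels w) (sg w) (sn w) (il w)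

/-! ### The third move in canonical form -/

/-- Two letters in one of the two orders. -/
def pr (t : Bool) (x y : Letter) : Word := if t then [x, y] else [y, x]

/-- Canonical form of the three strands of a triangle, in the order of passage: `la`, `lb` are the
first passages of the crossing of the strands `1, 2` and `1, 3`, `lc` is the first passage of the
crossing of the strands `2, 3`. -/
def Can (s₁ s₂ s₃ : Word) (la lb lc : Letter) (α β γ : Bool) : Prop :=
  s₁ = pr α la lb ∧ s₂ = pr β (bar la) lc ∧ s₃ = pr γ (bar lb) (bar lc) ∧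
  la.1 ≠ lb.1 ∧ la.1 ≠ lc.1 ∧ lb.1 ≠ lc.1 ∧
  eps (la.1, la.2.1) = eps (lb.1, lb.2.1) * bs β * bs γ ∧
  eps (lc.1, lc.2.1) = eps (lb.1, lb.2.1) * bs α * bs β ∧
  ¬ (la.2.2 = false ∧ lc.2.2 = false ∧ lb.2.2 = true) ∧
  ¬ (lb.2.2 = false ∧ la.2.2 = true ∧ lc.2.2 = true)

/-! ### Twist knots -/

/-- A twist region: letters with alternating sides. -/
def seg (ov : ℕ → Bool) : Bool → List ℕ → Word
  | _, [] => []
  | s, a :: l => (a, s, ov a) :: seg ov (!s) l

/-- A twist region with the crossings `ls` and an antiparallel clasp with the crossings `0`, `1`;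
`ov` tells which first passages are over. -/
def tg (ls : List ℕ) (ov : ℕ → Bool) : Word :=
  [(0, false, ov 0), (1, true, ov 1)] ++ seg ov true ls ++
    [(1, false, !ov 1), (0, true, !ov 0)] ++ (seg ov true ls).reverse.map bar

/-- Over and under for the twist knots. -/
def tov (l : ℕ) : Bool := if l = 0 then true else if l = 1 then false else decide (l % 2 = 1)

/-- The twist knot with `N` full twists. -/
def tw (N : ℕ) : Word := tg ((List.range (2 * N)).map (fun n => n + 2)) tov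

/-! ### Exponents -/

/-- `(1 + X ^ m) ^ e` for `m ≥ 1`. -/
noncomputable def bx (m : ℕ) (e : ℤ) : PowerSeries ℤ :=
  PowerSeries.mk (fun k => if m ∣ k then Ring.choose e (k / m) else 0)

/-- `f` divided by the first `m` factors of its product expansion. -/
noncomputable def st : ℕ → PowerSeries ℤ → PowerSeries ℤ
  | 0, f => f
  | m + 1, f => st m f * bx (m + 1) (-(PowerSeries.coeff (m + 1) (st m f)))

/-- The exponent of `1 + X ^ m` in the product expansion of `f`. -/
noncomputable def ee (m : ℕ) (f : PowerSeries ℤ) : ℤ := PowerSeries.coeff m (st (m - 1) f)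

/-! ### Graded families -/

/-- A graded abelian group with operators `I m` of degree `m` and iterated derivations
`Θ m n` of degree `- m n`. -/
structure Fam (Z : Type) [AddCommGroup Z] (A : ℕ → AddSubgroup Z) (I : ℕ → Z →+ Z)
    (Θ : ℕ → ℕ → Z →+ Z) : Prop where
  hI : ∀ m, 2 ≤ m → ∀ k, ∀ x ∈ A k, I m x ∈ A (k + m)
  hT : ∀ m, 2 ≤ m → ∀ n k, m * n ≤ k → ∀ x ∈ A k, Θ m n x ∈ A (k - m * n)
  hT0 : ∀ m, 2 ≤ m → ∀ n k, k < m * n → ∀ x ∈ A k, Θ m n x = 0
  h0 : ∀ m, 2 ≤ m → ∀ k, ∀ x ∈ A k, Θ m 0 x = x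
  hcomm : ∀ m m', 2 ≤ m → 2 ≤ m' → ∀ n n' k, ∀ x ∈ A k,
    Θ m n (Θ m' n' x) = Θ m' n' (Θ m n x)
  hit : ∀ m, 2 ≤ m → ∀ a b k, ∀ x ∈ A k,
    Θ m a (Θ m b x) = ((a + b).choose a : ℤ) • Θ m (a + b) x
  hrel : ∀ m m', 2 ≤ m → 2 ≤ m' → ∀ n k, ∀ x ∈ A k,
    Θ m' (n + 1) (I m x) = I m (Θ m' (n + 1) x) + (if m = m' then Θ m' n x else 0)

/-- The elements of degree `k` killed by all derivations. -/
def BB {Z : Type} [AddCommGroup Z] (A : ℕ → AddSubgroup Z) (Θ : ℕ → ℕ → Z →+ Z) (k : ℕ) :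
    AddSubgroup Z where
  carrier := {x | x ∈ A k ∧ ∀ m, 2 ≤ m → ∀ n, 1 ≤ n → Θ m n x = 0}
  add_mem' := by
    rintro a b ⟨ha, ha'⟩ ⟨hb, hb'⟩
    exact ⟨add_mem ha hb, fun m hm n hn => by rw [map_add, ha' m hm n hn, hb' m hm n hn, add_zero]⟩
  zero_mem' := ⟨zero_mem _, fun m _ n _ => map_zero _⟩
  neg_mem' := by
    rintro a ⟨ha, ha'⟩
    exact ⟨neg_mem ha, fun m hm n hn => by rw [map_neg, ha' m hm n hn, neg_zero]⟩

/-- Multisets of integers `≥ 2` with sum at most `d`, i.e. the partitions of the integers `n ≤ d`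
into parts `≥ 2`. -/
abbrev MS (d : ℕ) : Type := {s : Multiset ℕ // (∀ x ∈ s, 2 ≤ x) ∧ s.sum ≤ d}

/-- The number of partitions of `n` into parts `≥ 2`. -/
noncomputable def np (n : ℕ) : ℕ := Nat.card {s : Multiset ℕ // (∀ x ∈ s, 2 ≤ x) ∧ s.sum = n}

/-- Operators on `ZK` compatible with a filtration up to terms of higher filtration. -/
structure OpSys (Z : Type) [AddCommGroup Z] (G : ℕ → AddSubgroup Z) (I : ℕ → Z →+ Z)
    (Θ : ℕ → ℕ → Z →+ Z) : Prop where
  anti : Antitone G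
  hI : ∀ m, 2 ≤ m → ∀ k, ∀ x ∈ G k, I m x ∈ G (k + m)
  hT : ∀ m, 2 ≤ m → ∀ n k, ∀ x ∈ G k, Θ m n x ∈ G (k - m * n)
  h0 : ∀ m, 2 ≤ m → ∀ x, Θ m 0 x = x
  hcomm : ∀ m m', 2 ≤ m → 2 ≤ m' → ∀ n n' x, Θ m n (Θ m' n' x) = Θ m' n' (Θ m n x)
  hit : ∀ m, 2 ≤ m → ∀ a b k, m * (a + b) ≤ k → ∀ x ∈ G k,
    Θ m a (Θ m b x) - ((a + b).choose a : ℤ) • Θ m (a + b) x ∈ G (k - m * (a + b) + 1)
  hrel : ∀ m m', 2 ≤ m → 2 ≤ m' → ∀ n k, ∀ x ∈ G k,
    Θ m' (n + 1) (I m x) - I m (Θ m' (n + 1) x) - (if m = m' then Θ m' n x else 0) ∈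
      G (k + m + 1 - m' * (n + 1))

end Pool.Agent.VTP
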