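import Pool.Agent.VTP.Defs

/-!
# Squad VTP, block A: the sum `PP` (finite sums in a commutative ring, no knots)

One statement per row; every docstring contains a complete proof.  `q n` is written `q^n`;
`q (n + k) = q n * q k` and `(N + 2 * k) / 2 = N / 2 + k` (`Int.add_mul_ediv_left`), so parity never
matters.  For `σ = 1` or `σ = -1`: `1 - q^(-σ) = - q^(-σ) (1 - q^σ)`.
-/

set_option autoImplicit false

namespace Pool.Agent.VTP

open Finset Pool.Agent.ZOL

/-- **PCG** (easy).  `PP` depends only on the values on `V`.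
Proof.  Subsets `S` of `V`: `NI`, `NN` and the products only use values on `V`. -/
def PcgStmt : Prop :=
  ∀ (V : Finset ℕ) (σ σ' s s' : ℕ → ℤ) (i i' : ℕ → ℕ → Prop),
    (∀ d ∈ V, σ d = σ' d) → (∀ d ∈ V, s d = s' d) →
    (∀ c ∈ V, ∀ d ∈ V, (i c d ↔ i' c d)) →
    (∀ (R : Type) [CommRing R] (q : ℤ → R), PP q V σ s i = PP q V σ' s' i') ∧
    ∀ S ⊆ V, (NI i S ↔ NI i' S) ∧ NN V σ s i S = NN V σ' s' i' S

/-- **PIM** (easy).  Renaming of the crossings.
Proof.  `S ↦ S.image τ` is a bijection of the subsets of `V` onto the subsets of `V.image τ`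
which preserves `NI` and `NN`. -/
def PimStmt : Prop :=
  ∀ (V : Finset ℕ) (σ σ' s s' : ℕ → ℤ) (i i' : ℕ → ℕ → Prop) (τ : ℕ → ℕ),
    Set.InjOn τ (V : Set ℕ) → (∀ d ∈ V, σ' (τ d) = σ d) → (∀ d ∈ V, s' (τ d) = s d) →
    (∀ c ∈ V, ∀ d ∈ V, (i' (τ c) (τ d) ↔ i c d)) →
    (∀ (R : Type) [CommRing R] (q : ℤ → R), PP q (V.image τ) σ' s' i' = PP q V σ s i) ∧
    ∀ S ⊆ V, (NI i' (S.image τ) ↔ NI i S) ∧
      NN (V.image τ) σ' s' i' (S.image τ) = NN V σ s i S

/-- **PR1** (easy-medium).  A crossing `a` interlaced with nothing can be removed.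
Proof.  The subsets of `insert a V` are `S` and `insert a S`, `S ⊆ V`; `NI` of both is `NI` of `S`.
`NN (insert a V) S = NN V S + σ a - s a`, `NN (insert a V) (insert a S) = NN V S - σ a - s a`.
If `s a = σ a`, the second terms vanish (`xx = 0`) and the first ones do not change.  If
`s a = - σ a`: `q^(N/2 + σ a) + (1 - q^(σ a)) q^(N/2) = q^(N/2)`. -/
def Pr1Stmt : Prop :=
  ∀ (R : Type) [CommRing R] (q : ℤ → R), IsExp q → ∀ (V : Finset ℕ) (σ s : ℕ → ℤ)
    (i : ℕ → ℕ → Prop) (a : ℕ), a ∉ V → (∀ d, ¬ i a d ∧ ¬ i d a) →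
    (s a = σ a ∨ s a = - σ a) → (σ a = 1 ∨ σ a = -1) →
    PP q (insert a V) σ s i = PP q V σ s i

/-- **PR2** (medium).  Two parallel crossings of opposite signs can be removed.
Proof.  Subsets `S`, `S ∪ {a}`, `S ∪ {b}`, `S ∪ {a, b}` of `insert a (insert b V)`, `S ⊆ V`, `NI S`.
For `S`: `a` is interlaced with no element of `S` iff `b` is, so the contribution `σ a + σ b = 0`, and
`s a + s b = 0`: the same term as for `V`.  The other three terms have sum `0`:  they are absent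
if `a` is interlaced with an element of `S` (then also `b`); otherwise let `N` be
`NN V σ s i` of the formal set `S ∪ {a}`, i.e. the sum of `σ d` over `d ∈ V \ S` interlaced with no
element of `S` and not with `a` (equivalently `b`), minus `∑ S`, minus the writhe of `V`.
If `s a = σ a`, then `s b = σ b` and all three vanish.  If `s a = - σ a`, write `σ = σ a`:
* `i a b`: `(1 - q^σ) q^((N - σ)/2) + (1 - q^(-σ)) q^((N + σ)/2)` and `(N + σ)/2 = (N - σ)/2 + σ`:
  the sum is `q^((N - σ)/2) ((1 - q^σ) + (q^σ - 1)) = 0`; `{a, b}` is not `NI`.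
* not `i a b`: `(1 - q^σ) q^(N/2 - σ) + (1 - q^(-σ)) q^(N/2 + σ) + (1 - q^σ) (1 - q^(-σ)) q^(N/2) = 0`. -/
def Pr2Stmt : Prop :=
  ∀ (R : Type) [CommRing R] (q : ℤ → R), IsExp q → ∀ (V : Finset ℕ) (σ s : ℕ → ℤ)
    (i : ℕ → ℕ → Prop) (a b : ℕ), a ∉ V → b ∉ V → a ≠ b → (∀ c d, i c d → i d c) →
    (∀ c, ¬ i c c) → (∀ d ∈ V, (i a d ↔ i b d)) → σ b = - σ a → s b = - s a →
    (s a = σ a ∨ s a = - σ a) → (σ a = 1 ∨ σ a = -1) →
    PP q (insert a (insert b V)) σ s i = PP q V σ s i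

/-- The local sum over the subsets of `{a, b, c}`: `sa, sb, sc` are the signs `σ`, the booleans
`ua, ub, uc` tell which first passages are under, `iab, iac, ibc` which pairs are interlaced,
`n, y, ya, yb, yc, y3` are the contributions of the other crossings. -/
def loc {R : Type} [CommRing R] (q : ℤ → R) (n sa sb sc : ℤ) (ua ub uc iab iac ibc : Bool)
    (y ya yb yc y3 : ℤ) : R :=
  q ((n + y + sa + sb + sc) / 2) +
  (if ua then (1 - q sa) *
    q ((n + ya - sa + (if iab then 0 else sb) + (if iac then 0 else sc)) / 2) else 0) +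
  (if ub then (1 - q sb) *
    q ((n + yb - sb + (if iab then 0 else sa) + (if ibc then 0 else sc)) / 2) else 0) +
  (if uc then (1 - q sc) *
    q ((n + yc - sc + (if iac then 0 else sa) + (if ibc then 0 else sb)) / 2) else 0) +
  (if ua && ub && !iab then (1 - q sa) * (1 - q sb) *
    q ((n + y3 - sa - sb + (if iac || ibc then 0 else sc)) / 2) else 0) +
  (if ua && uc && !iac then (1 - q sa) * (1 - q sc) *
    q ((n + y3 - sa - sc + (if iab || ibc then 0 else sb)) / 2) else 0) +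
  (if ub && uc && !ibc then (1 - q sb) * (1 - q sc) *
    q ((n + y3 - sb - sc + (if iab || iac then 0 else sa)) / 2) else 0) +
  (if ua && ub && uc && !iab && !iac && !ibc then (1 - q sa) * (1 - q sb) * (1 - q sc) *
    q ((n + y3 - sa - sb - sc) / 2) else 0)

/-- **LOC** (medium, finite check in a commutative ring).  The local identity of the third move.
Proof.  `2 * 8` cases for `sb = ±1` and `α, β, γ`, and six admissible `(ua, ub, uc)`.  The terms for
`∅`, `{a}`, `{c}` agree on both sides (equal exponents).  With `σ = sb`, `x = 1 - q^σ`,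
`z = 1 - q^(-σ)`, `x z = - q^(-σ) x^2 = - q^σ z^2` the difference of the two sides is (up to exchange
of the sides) for `ub = false` a sum of terms for `{a, c}`, absent because `ua && uc` is excluded, and for
`ub = true`:
* `α = β = γ` (`sa = sb = sc = σ`, `y3 = yb + σ`): `x (q^((n + yb - σ)/2) - q^((n + yb + σ)/2))
  + x^2 q^((n + y3 - 2σ)/2) ([ua uc] - [ua] - [uc]) = x^2 q^((n + yb - σ)/2) (1 - 1) = 0`, as
  `[ua uc] - [ua] - [uc] = -1` (at least one of `ua, uc` is true).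
* the other cases (`y3 = yb`): the same computation, the difference is `± x z` (times a power of `q`)
  times `q^((n + yb)/2) + ([ua uc] - [ua] - [uc]) q^((n + y3)/2) = 0`; in the case `α = γ ≠ β` there are on one side
  also the terms for `{a, b}`, `{b, c}`, `{a, c}` and `{a, b, c}`. -/
def LocStmt : Prop :=
  ∀ (R : Type) [CommRing R] (q : ℤ → R), IsExp q → ∀ (n sa sb sc : ℤ) (ua ub uc α β γ : Bool)
    (y ya yb yc y3 : ℤ), (sb = 1 ∨ sb = -1) → sa = sb * bs β * bs γ → sc = sb * bs α * bs β →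
    ¬ (ua = true ∧ uc = true ∧ ub = false) → ¬ (ub = true ∧ ua = false ∧ uc = false) →
    y3 = yb + (if α = β ∧ β = γ then sb else 0) →
    loc q n sa sb sc ua ub uc α (!β) γ y ya yb yc y3 =
      loc q n sa sb sc ua ub uc (!α) β (!γ) y ya yb yc y3

/-- **PR3** (STRONG, uses LOC).  The third move.
Proof.  Write the subsets of `V ∪ {a, b, c}` as `S ∪ T`, `S ⊆ V`, `T ⊆ {a, b, c}`, and compare the sum over
`T` for every fixed `S` with `NI S` (the same condition for `iL` and `iR`).  Let `K` be the set of those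
`x ∈ {a, b, c}` which are interlaced with no element of `S` (the same for `iL`, `iR`).  By the parity
condition `hpar` two elements in `K` imply the third.  `T ⊆ K` is necessary.
* `K = ∅` or `K = {x}`: only `T = ∅` and `T = {x}`; the elements of `{a, b, c} \ K` never contribute to the
  first sum of `NN`; all terms agree.
* `K = {a, b, c}`: the sum over `T` is `(∏ c ∈ S, xx) * loc q n ...` with `n = - ∑_S σ - writhe`,
  `y` = sum of `σ d` over `D` = the set of `d ∈ V \ S` interlaced with no element of `S`, `y_x` = the same over the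
  `d ∈ D` not interlaced with `x`, `y3` = the same over the `d ∈ D` interlaced with none of `a, b, c`; by
  `hpar` a `d` not interlaced with two of them is not interlaced with the third, so `y3` is the contribution for all
  `T` with at least two elements.  `yb - y3` is the sum over the `d ∈ D` interlaced with `a` and `c`
  (then not with `b`): hypothesis `hJ` gives `y3 = yb + (if α = β ∧ β = γ then σ b else 0)`.  `u_x` is
  `decide (s x ≠ σ x)`.  LOC. -/
def Pr3Stmt : Prop :=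
  ∀ (R : Type) [CommRing R] (q : ℤ → R), IsExp q → ∀ (V : Finset ℕ) (σ s : ℕ → ℤ)
    (iL iR : ℕ → ℕ → Prop) (a b c : ℕ) (α β γ : Bool),
    a ∉ V → b ∉ V → c ∉ V → a ≠ b → a ≠ c → b ≠ c →
    (∀ x y, iL x y → iL y x) → (∀ x y, iR x y → iR y x) → (∀ x, ¬ iL x x) → (∀ x, ¬ iR x x) →
    (∀ x ∈ V, ∀ y ∈ V, (iL x y ↔ iR x y)) →
    (∀ x ∈ ({a, b, c} : Finset ℕ), ∀ y ∈ V, (iL x y ↔ iR x y)) →
    (∀ d ∈ V, (iL b d ↔ ¬ (iL a d ↔ iL c d))) →
    (iL a b ↔ α = true) → (iL a c ↔ β = false) → (iL b c ↔ γ = true) →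
    (iR a b ↔ α = false) → (iR a c ↔ β = true) → (iR b c ↔ γ = false) →
    (σ b = 1 ∨ σ b = -1) → σ a = σ b * bs β * bs γ → σ c = σ b * bs α * bs β →
    (∀ x ∈ ({a, b, c} : Finset ℕ), s x = σ x ∨ s x = - σ x) →
    ¬ (s a ≠ σ a ∧ s c ≠ σ c ∧ s b = σ b) → ¬ (s b ≠ σ b ∧ s a = σ a ∧ s c = σ c) →
    (∀ S ⊆ V, NI iL S → (∀ x ∈ S, ¬ iL a x ∧ ¬ iL c x) →
      ∀ D : Finset ℕ, (∀ d, d ∈ D ↔ d ∈ V ∧ d ∉ S ∧ (∀ x ∈ S, ¬ iL x d) ∧ iL a d ∧ iL c d) →
      ∑ d ∈ D, σ d = if α = β ∧ β = γ then - σ b else 0) →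
    PP q (insert a (insert b (insert c V))) σ s iL =
      PP q (insert a (insert b (insert c V))) σ s iR

/-- **PMU** (medium).  Products.
Proof.  `S ↦ (S ∩ V₁, S ∩ V₂)` is a bijection of the subsets of `V₁ ∪ V₂` onto the pairs; `NI S` iff both are
`NI`; `NN` is additive (an element of `V₁` is interlaced with no element of `V₂`), and
`(N₁ + N₂) / 2 = N₁ / 2 + N₂ / 2` because `N₂` is even. -/
def PmuStmt : Prop :=
  ∀ (R : Type) [CommRing R] (q : ℤ → R), IsExp q → ∀ (V₁ V₂ : Finset ℕ) (σ s : ℕ → ℤ)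
    (i : ℕ → ℕ → Prop), Disjoint V₁ V₂ → (∀ c ∈ V₁, ∀ d ∈ V₂, ¬ i c d ∧ ¬ i d c) →
    (∀ S ⊆ V₂, NI i S → Even (NN V₂ σ s i S)) →
    PP q (V₁ ∪ V₂) σ s i = PP q V₁ σ s i * PP q V₂ σ s i

/-- **PDG** (medium).  The coefficient of `X ^ k` is of degree `k` in the crossing changes.
Proof.  For `B ⊆ ℕ` let `s_B d = - s d` if `d ∈ B`, `s d` otherwise.  `NN V σ s_B i S = NN V σ s i S +
2 * ∑ d ∈ V ∩ B, s d`, so the term of `S` is `q^(NN V σ s i S / 2) * ∏ d ∈ V, y_S d (d ∈ B)` with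
`y_S d (false) = xx q σ s d` for `d ∈ S` and `1` for `d ∉ S`, `y_S d (true) = xx q σ (- s) d * q^(s d)` for `d ∈ S` and
`q^(s d)` for `d ∉ S`.  Hence `∑ B ∈ A.powerset, (-1)^(card B) * term` is `0` if `A ⊄ V` (pair `B` with
`B ∆ {a}`, `a ∈ A \ V`), and otherwise `q^(..) * ∏ d ∈ A, (y d false - y d true) * ∏ d ∈ V \ A, y d false`.
`X` divides `q n - 1` for all `n`, so it divides `xx` and every factor `y d false - y d true`: `X ^ (card A)` divides the
sum, the coefficient of `X ^ k`, `k < card A`, is `0`. -/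
def PdgStmt : Prop :=
  ∀ (q : ℤ → PowerSeries ℤ), IsExp q → (∀ n, PowerSeries.X ∣ q n - 1) →
    ∀ (V : Finset ℕ) (σ s : ℕ → ℤ) (i : ℕ → ℕ → Prop) (k : ℕ),
    Deg k (fun B => PowerSeries.coeff k (PP q V σ (fun d => if d ∈ B then - s d else s d) i))

/-- **PCC** (easy).  The constant coefficient is `1`.
Proof.  All the terms with `S ≠ ∅` are divisible by `X`; the term of `∅` is `q^(..)`, which is `1` modulo `X`. -/
def PccStmt : Prop :=
  ∀ (q : ℤ → PowerSeries ℤ), IsExp q → (∀ n, PowerSeries.X ∣ q n - 1) →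
    ∀ (V : Finset ℕ) (σ s : ℕ → ℤ) (i : ℕ → ℕ → Prop),
    PowerSeries.constantCoeff (PP q V σ s i) = 1

/-- **QEX** (easy).  The binomial series.
Proof.  `qq 0 = 1`; `qq (m + n) = qq m * qq n` is Vandermonde (`Ring.add_choose_eq`); the constant coefficient of
`qq n` is `Ring.choose n 0 = 1`; `qq 1 = 1 + X`. -/
def QexStmt : Prop :=
  IsExp qq ∧ qq 1 = 1 + PowerSeries.X ∧ ∀ n, PowerSeries.X ∣ qq n - 1

/-- Signs, first passages and interlacement in the twist knot `tw N`. -/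
def sT (d : ℕ) : ℤ := if d = 0 then -1 else if d = 1 then 1 else if d % 2 = 0 then 1 else -1

def iT (c d : ℕ) : Prop := (c < 2 ∧ 2 ≤ d) ∨ (d < 2 ∧ 2 ≤ c)

/-- **TWS** (medium).  The sum for the twist knot with `N` full twists.
Proof.  `V = range (2 N + 2)`, all signs `s = -1`; `s d ≠ sT d` (first passage under) for `d = 1` and for the even
`d ≥ 2`.  The writhe is `-(2 N + 2)`, `∑ V, sT = 0`.  `NI` sets: subsets of `{0, 1}` and subsets of
`{2, ..., 2 N + 1}`.  The terms with non zero weight: `S = ∅`: `N = 2 N + 2`, term `q^(N + 1)`; `S = {1}`: only `0` is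
compatible, `NN = -1 - 1 + 2 N + 2 = 2 N`, term `(1 - q) q^N`; `S = A` a non empty set of even numbers `≥ 2`:
the compatible crossings are the other ones `≥ 2`, `NN = - card A - card A + 2 N + 2`, term
`(1 - q)^(card A) q^(N + 1 - card A)`.  Sum over all `A` (including `∅`):
`q^(N + 1) (1 + (1 - q) q^(-1))^N = q`.  Total: `q + (1 - q) q^N`.  All `NI` sets: `S ⊆ {0, 1}`, `S ≠ ∅`:
`NN = ∑ ({0, 1} \ S) sT - ∑ S sT + 2 N + 2 = - 2 ∑ S sT + 2 N + 2`; `S ⊆ {2, ...}` non empty:
`NN = - 2 ∑ S sT + 2 N + 2`: even. -/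
def TwsStmt : Prop :=
  (∀ (R : Type) [CommRing R] (q : ℤ → R), IsExp q → ∀ N : ℕ,
    PP q (range (2 * N + 2)) sT (fun _ => -1) iT = q 1 + (1 - q 1) * q N) ∧
  ∀ (N : ℕ), ∀ S ⊆ range (2 * N + 2), NI iT S → Even (NN (range (2 * N + 2)) sT (fun _ => -1) iT S)

end Pool.Agent.VTP
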