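import Pool.Agent.VTP.StmtsT

/-!
# Squad VTP, block G: graded algebra and assembly

One statement per row; every docstring contains a complete proof.
-/

set_option autoImplicit false

namespace Pool.Agent.VTP

open Finset Pool.Agent.ZOL

/-- **ITR** (medium).  The derivations `theta v n` commute and are iterative up to lower terms.
Proof.  On the basis element `k` they multiply by `Ring.choose (v k) n`: they commute.  The integer valued
polynomial `choose v a * choose v b - choose (a + b) a * choose v (a + b)` has degree `< a + b`, so it is an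
integral combination of the `choose v c`, `c < a + b` (`c ≥ 0`); `theta v c x ∈ G (d - m c) ≤ G (d - m (a + b) + 1)`
since `m ≥ 1`, `m (a + b) ≤ d`.  (E.g. by induction on `b` from `(b + 1) choose v (b + 1) = (v - b) choose v b`, or
Vandermonde: `choose v a * choose v b = ∑ j, choose a j... choose v (a + b - j)`, `Ring.choose` analog of
`Nat.choose_mul`.) -/
def ItrStmt : Prop :=
  (∀ (K : Type) (u v : K → ℤ) (a b : ℕ) (x : K →₀ ℤ),
    theta u a (theta v b x) = theta v b (theta u a x)) ∧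
  (∀ (K : Type) (G : ℕ → AddSubgroup (K →₀ ℤ)) (v : K → ℤ) (m : ℕ), 1 ≤ m → Antitone G →
    (∀ n d, ∀ x ∈ G d, theta v n x ∈ G (d - m * n)) →
    ∀ a b d, m * (a + b) ≤ d → ∀ x ∈ G d,
      theta v a (theta v b x) - ((a + b).choose a : ℤ) • theta v (a + b) x ∈
        G (d - m * (a + b) + 1))

/-- The operator of multiplication by `t_m`: the difference of order `m - 1` of the twist knots. -/
noncomputable def II {K : Type} (μ : ℕ → K → K) (m : ℕ) : (K →₀ ℤ) →+ (K →₀ ℤ) :=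
  ∑ j ∈ range m, ((-1 : ℤ) ^ (m - 1 - j) * ((m - 1).choose j : ℤ)) • lin (μ j)

/-- **REL** (STRONG, uses BCH).  Commutation of `theta v n` (of degree `- m' n`) and `II μ m`.
Proof.  `theta v (n + 1) (lin (μ j) x) = ∑ b ≤ n + 1, choose (e j) b • lin (μ j) (theta v (n + 1 - b) x)`
(`H34.theta_lin`).  The terms `b = 0` give `II m (theta v (n + 1) x)`.  For `b ≥ 1` let
`choose (e j) b = ∑ r in [1, b (m' - 1)], A r choose j r` (BCH; for `b = 1` the given one).  By
`choose (m - 1) j * choose j r = choose (m - 1) r * choose (m - 1 - r) (j - r)`,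
`∑ j, ± choose (m - 1) j * choose j r • lin (μ j) y = choose (m - 1) r • D`, `D` the difference of order `m - 1 - r` of
`lin (μ (i + r)) y` (`0` if `r > m - 1`), `y = theta v (n + 1 - b) x ∈ G d'`, `d' = d - m' (n + 1 - b)`.
If `r ≤ m - 2`: `D ∈ G (d' + (m - 1 - r) + 1)`, and `d' + m - r ≥ d + m - m' (n + 1) + m' b - b (m' - 1) ≥ d + m + 1 - m' (n + 1)`.
If `r = m - 1 ≤ b (m' - 1)`: `D = lin (μ (m - 1)) y ∈ G d'`; if `b ≥ 2` or `m < m'` then `m' b ≥ m + 1`, so
`d' ≥ d + m + 1 - m' (n + 1)`.  There remains `b = 1`, `m = m'`: the term is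
`a (m - 1) • lin (μ (m - 1)) (theta v n x)`, congruent to `a (m - 1) • theta v n x` modulo `G (d - m n + 1)`.
(All subtractions are truncated; `G 0` contains everything needed because `G` is antitone.) -/
def RelStmt : Prop :=
  ∀ (K : Type) (G : ℕ → AddSubgroup (K →₀ ℤ)) (μ : ℕ → K → K) (v : K → ℤ) (e : ℕ → ℤ)
    (m m' : ℕ) (c : ℤ), 2 ≤ m → 2 ≤ m' → Antitone G →
    (∀ j k, v (μ j k) = v k + e j) → BP (m' - 1) e c →
    (∀ n d, ∀ x ∈ G d, theta v n x ∈ G (d - m' * n)) →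
    (∀ r j d, 1 ≤ r → ∀ x ∈ G d,
      (∑ i ∈ range (r + 1), ((-1 : ℤ) ^ (r - i) * (r.choose i : ℤ)) • lin (μ (i + j)) x) ∈
        G (d + r + 1)) →
    (∀ j d, ∀ x ∈ G d, lin (μ j) x - x ∈ G (d + 1)) →
    ∀ n d, ∀ x ∈ G d, theta v (n + 1) (II μ m x) - II μ m (theta v (n + 1) x) -
      (if m = m' then c • theta v n x else 0) ∈ G (d + m + 1 - m' * (n + 1))

/-- **OPS** (medium-strong, assembly; uses KNP WMU WDG TWV MUJ EAD EDG ETW ITR REL FIM FID and PCC).
The operators on `ZK`.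
Proof.  `P` from KNP, `v_m (K) = - ee m (P K)`.  Finite type: WDG, EDG, `H25.th` (`theta (v_m) n (F d) ⊆ F (d - m n)`).
`v_m (μ j K) = v_m (K) + e_m j` with `e_m j = - ee m (PW (tw j))`: WMU, EAD (constant coefficients: PCC), TWV; `BP (m - 1) e_m 1` by ETW
(`BP n (- g) (- c)`).  `Θ m n = theta (v_m) n`, `I m = II μ m`.  `hI`: FIM with `r = m - 1`, `j = 0`.  `hrel`: REL with `c = 1`. -/
def OpsStmt : Prop :=
  ∃ (I : ℕ → ZK →+ ZK) (Θ : ℕ → ℕ → ZK →+ ZK), OpSys ZK F I Θ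

/-- **AMB** (STRONG).  Passage to the graded group.
Proof.  `Z' = ∀ k, Gr k` where `Gr k = G k ⧸ (G (k + 1)).addSubgroupOf (G k)`, `A k` = the families supported at `k`.
For `φ : Z →+ Z` and `d, e` with `φ (G d) ⊆ G e`, `φ (G (d + 1)) ⊆ G (e + 1)` let `ind φ d e : Gr d →+ Gr e` be the induced map
(`0` if the inclusions fail).  `(I' m f) k = ind (I m) (k - m) k (f (k - m))` if `m ≤ k`, else `0`;
`(Θ' m n f) k = ind (Θ m n) (k + m n) k (f (k + m n))`.  The relations for `f ∈ A k` follow from those of `OpSys`, applied to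
representatives; e.g. for `f ∈ A k` and `m' (n + 1) ≤ k + m` both sides of `hrel` are supported at `k + m - m' (n + 1)`; if
`k < m' (n + 1)` then `I m (Θ m' (n + 1) x) ∈ G m ≤ G (k + m + 1 - m' (n + 1))`, so it vanishes in the graded group. -/
def AmbStmt : Prop :=
  ∀ (Z : Type) [AddCommGroup Z] (G : ℕ → AddSubgroup Z) (I : ℕ → Z →+ Z)
    (Θ : ℕ → ℕ → Z →+ Z), OpSys Z G I Θ →
    ∃ (Z' : Type) (_ : AddCommGroup Z') (A : ℕ → AddSubgroup Z') (I' : ℕ → Z' →+ Z')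
      (Θ' : ℕ → ℕ → Z' →+ Z'), Fam Z' A I' Θ' ∧
      ∀ k, Nonempty (A k ≃+ (G k ⧸ (G (k + 1)).addSubgroupOf (G k)))

/-- **HS1** (medium-strong).  One derivation.
Proof.  Let `B k = {x ∈ A k | θ n x = 0 for n ≥ 1}`, `π x = ∑ n ≤ k, (-1)^n I^n (θ n x)` for `x ∈ A k`.  By induction
`θ j (I^n y) = ∑ i, choose n i I^(n - i) (θ (j - i) y)` (`i ≤ min n j`).  `π x ∈ B k`: with `hit`,
`θ j (π x) = ∑ r, (-1)^r choose (r + j) r I^r (θ (r + j) x) ∑ i, (-1)^i choose j i = 0` for `j ≥ 1`.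
The map `(y_i)_(i ≤ k / m) ↦ ∑ I^i y_i`, `y_i ∈ B (k - m i)`, is additive; injective: `π (θ j (∑ I^i y_i)) = y_j`
because `θ j (I^i y) = choose i j I^(i - j) y` for `y ∈ B` (`0` if `i < j`) and `π (I z) = 0`, `π y = y` for `y ∈ B`;
surjective: `x = ∑ j, I^j (π (θ j x))`: by `hit` the right side is `∑ (j, n), (-1)^n choose (n + j) n I^(j + n) (θ (j + n) x) = x`
(`∑ (j + n = r), (-1)^n choose r n = 0` for `r ≥ 1`). -/
def Hs1Stmt : Prop :=
  ∀ (Z : Type) [AddCommGroup Z] (A : ℕ → AddSubgroup Z) (I : Z →+ Z) (θ : ℕ → Z →+ Z) (m : ℕ),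
    1 ≤ m →
    (∀ k, ∀ x ∈ A k, I x ∈ A (k + m)) →
    (∀ n k, m * n ≤ k → ∀ x ∈ A k, θ n x ∈ A (k - m * n)) →
    (∀ n k, k < m * n → ∀ x ∈ A k, θ n x = 0) →
    (∀ k, ∀ x ∈ A k, θ 0 x = x) →
    (∀ a b k, ∀ x ∈ A k, θ a (θ b x) = ((a + b).choose a : ℤ) • θ (a + b) x) →
    (∀ n k, ∀ x ∈ A k, θ (n + 1) (I x) = I (θ (n + 1) x) + θ n x) →
    ∀ k, (∀ x ∈ A k, ∃ y : ℕ → Z, (∀ i, m * i ≤ k → y i ∈ A (k - m * i) ∧
        ∀ n, 1 ≤ n → θ n (y i) = 0) ∧ x = ∑ i ∈ range (k / m + 1), (I^[i]) (y i)) ∧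
      (∀ y : ℕ → Z, (∀ i, m * i ≤ k → y i ∈ A (k - m * i) ∧ ∀ n, 1 ≤ n → θ n (y i) = 0) →
        ∑ i ∈ range (k / m + 1), (I^[i]) (y i) = 0 → ∀ i, m * i ≤ k → y i = 0)

/-- **HSN** (STRONG, uses HS1).  All derivations.
Proof.  For `N ≥ 1` let `A_N k = {x ∈ A k | Θ m n x = 0 for 2 ≤ m ≤ N, n ≥ 1}`, `A_1 k = A k`.  `A_N` is stable under
`I m`, `Θ m n` for `m > N` (`hcomm`, `hrel` with `m ≠ m'`), so HS1 applies to `A_(N - 1)` with `m = N`:
`A_(N - 1) k` is isomorphic to the product of the `A_N (k - N i)`, `i ≤ k / N`, by `∑ I N ^[i]`.  By induction on `N`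
`A d` is isomorphic to the product over the multisets `s` of elements of `[2, N]` with `s.sum ≤ d` of
`A_N (d - s.sum)`: a multiset with elements in `[2, N]` is a multiset `s'` with elements in `[2, N - 1]` and the number `i`
of elements `N`.  For `N = max d 1`: all `s ∈ MS d` have elements `≤ d`, and `A_N k = BB A Θ k` for `k ≤ d` by `hT0`. -/
def HsnStmt : Prop :=
  ∀ (Z : Type) [AddCommGroup Z] (A : ℕ → AddSubgroup Z) (I : ℕ → Z →+ Z)
    (Θ : ℕ → ℕ → Z →+ Z), Fam Z A I Θ →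
    ∀ d, Nonempty (A d ≃+ ((s : MS d) → BB A Θ (d - s.1.sum)))

/-- **DEC** (easy, uses OPS AMB HSN).  The decomposition of the graded pieces. -/
def DecStmt : Prop :=
  ∃ (M : ℕ → Type) (_ : ∀ k, AddCommGroup (M k)),
    ∀ d, Nonempty (Graded d ≃+ ((s : MS d) → M (d - s.1.sum)))

/-- **COR** (medium).  Consequences of the decomposition.
Proof.  (1) For `e ≥ d + 2`, `s ↦ (e - d) ::ₘ s` is an injection of `MS d` into `MS e` (`e - d ≥ 2`) with
`e - (sum) = d - s.sum`: the product over `MS d` is a direct factor of the product over `MS e`.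
(2) If some graded piece has an element `x ≠ 0` with `p x = 0`, then some `M k` has; let `e` be the least such `k` and `y ∈ M e`
of order `p`.  For `d ≥ e` the elements of the product with entries `0` or multiples of `y` at the `s` with
`s.sum = d - e` form a group `(Z/p)^(np (d - e))`.  (`{s | s.sum = d - e}` is finite, `Nat.card` and `Fin (np _)`.) -/
def CorStmt : Prop :=
  ∀ (M : ℕ → Type) (_ : ∀ k, AddCommGroup (M k)) (Gd : ℕ → Type) (_ : ∀ k, AddCommGroup (Gd k)),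
    (∀ d, Nonempty (Gd d ≃+ ((s : MS d) → M (d - s.1.sum)))) →
    (∀ d e, d + 2 ≤ e → ∃ (i : Gd d →+ Gd e) (r : Gd e →+ Gd d), ∀ x, r (i x) = x) ∧
    (∀ p : ℕ, p.Prime → (∀ (d : ℕ) (x : Gd d), (p : ℤ) • x = 0 → x = 0) ∨
      ∃ e : ℕ, ∀ d, e ≤ d → ∃ i : (Fin (np (d - e)) → ZMod p) →+ Gd d, Function.Injective i)

/-- **NPG** (medium).  The number of partitions into parts `≥ 2` grows faster than every polynomial.
Proof.  Let `K = k + 2`, `L = n / (K (K + 3))`.  For every `a : {4, ..., K + 3} → {0, ..., L - 1}` the sum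
`T = ∑ m, a m * m` is at most `K (K + 3) (L - 1) ≤ n - 2` (`L ≥ 1`), and `n - T ≥ 2` is a sum of parts `2` and at most
one part `3`: this gives `L ^ K` different multisets.  `L ≥ n / (K (K + 3)) - 1 ≥ n / (2 K (K + 3))` for large `n`,
and `L ^ K ≥ n ^ k * n ^ 2 / (2 K (K + 3)) ^ K ≥ n ^ k` for large `n`. -/
def NpgStmt : Prop := ∀ k : ℕ, ∃ N : ℕ, ∀ n, N ≤ n → n ^ k ≤ np n

end Pool.Agent.VTP
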