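import Pool.Agent.VTP.StmtsW

/-!
# Squad VTP, block T: twist knots and the operators

One statement per row; every docstring contains a complete proof.  The landed rows of squad ZOL may be
imported: `H24.fmul H24.gflip H24.mgau H11.mpla : FMulStmt`, `H24.fch ..`, `H11.mpla`, `H24.mgau`, `H9.mstep`,
`H24.gflip`, `H25.fant`, `H25.fzero`, `H25.th`, `H40.mulK`, `H40.lin_kn`, `H40.hom_ext`, `H65.kn_eq`
(two planar Gauss words related by a `Step` have the same `kn`); see `Helper40_ZOL/Main.lean`.
-/

set_option autoImplicit false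

namespace Pool.Agent.VTP

open Finset Pool.Agent.ZOL

/-- **TFL** (easy).  Crossing changes of a twist word.
Proof.  `flip` acts letter by letter; `bar` of a changed letter is the changed `bar`. -/
def TflStmt : Prop :=
  ∀ (S : Finset ℕ) (ls : List ℕ) (ov : ℕ → Bool),
    flip S (tg ls ov) = tg ls (fun l => if l ∈ S then !ov l else ov l)

/-- **TGG** (easy-medium).  Gauss property.
Proof.  Every label occurs exactly twice, the second letter is `bar` of the first. -/
def TggStmt : Prop :=
  (∀ (ls : List ℕ) (ov : ℕ → Bool), ls.Nodup → 0 ∉ ls → 1 ∉ ls → IsGauss (tg ls ov)) ∧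
  (∀ (ls : List ℕ) (ov : ℕ → Bool) (s : Bool), ls.Nodup →
    IsGauss (seg ov s ls ++ (seg ov s ls).reverse.map bar))

/-- **TPG** (STRONG).  Planarity of the twist words with an even number of crossings in the twist region.
Proof.  `between_split` (`Helper11_ZOL/MPla.lean`) computes `between`.  Let `ε k` be the sign of the first letter of the
`k`-th crossing `t_k` of the twist region (`ε 1 = 1`, alternating), the clasp is `0 (-1)`, `1 (+1)`, ..., `1 (-1)`, `0 (+1)`.
Condition 1: `0`: `1 + ∑ ε - 1 = 0`; `1`: `∑ ε = 0` (even number); `t_k`: the sum of the `ε j`, `j > k`, then `-1 + 1`, then minus the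
sum of the `ε j`, `j > k`.
Condition 2 for `(a, b)` is minus that for `(b, a)` (exchange the letters of each crossing; `eps` changes sign), so only unordered
pairs: for `(0, 0)`, `(0, 1)`, `(1, 1)`: only the letters of `0`, `1` contribute (a letter of the twist region
which is inside has its partner outside) and they cancel.  For `(t_i, t_k)`: the letters of `t_n`: both
weights are the same at the two letters, the `eps` are opposite: `0`; the letters of `0`, `1` in the second half
are inside, their partners outside: `0`.  For `(0, t_i)`: the letter `0` (first): `-1 * 1 * 2`; first letter `1`: `+1 * 2 * 2`; first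
letters of `t_n`: `ε i * 2 * 1` for `n = i` and `ε n * 2 * 2` for `n > i`; sum `-2 + 4 + 2 ε i + 4 ∑ (n > i) ε n = 0`, because
`ε i + 2 ∑ (n > i) ε n = -1` (`i` odd: `1 + 2 * (-1)`, `i` even: `-1 + 0`).  For `(1, t_i)`: first letter `1`: `1 * 1 * 2`, first
letters of the `t_n`: `2 ε i + 4 ∑ = -2`: sum `0`.
Nested words: between the letters of `t_i` the letters cancel in pairs; condition 2: both weights are equal
at the two letters of every crossing. -/
def TpgStmt : Prop :=
  (∀ (ls : List ℕ) (ov : ℕ → Bool), ls.Nodup → 0 ∉ ls → 1 ∉ ls → Even ls.length →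
    Planar (shadow (tg ls ov))) ∧
  (∀ (ls : List ℕ) (ov : ℕ → Bool) (s : Bool), ls.Nodup →
    Planar (shadow (seg ov s ls ++ (seg ov s ls).reverse.map bar)))

/-- **TRM** (medium, uses TGG TPG).  Removal of two opposite crossings of the twist region.
Proof.  `seg ov true (p ++ [a, b] ++ l) = seg ov true p ++ [(a, true, ov a), (b, false, ov b)] ++ seg ov true l` (even length of
`p`); so `mul w (tg ..)` is `u ++ [(A, true, o), (B, false, o)] ++ v ++ [(B, true, !o), (A, false, !o)] ++ z` with `A = 2 a + 1`, `B = 2 b + 1`: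
move `Step.r2b`.  Both sides are planar Gauss words (TGG, TPG, `H24.mgau`, `H11.mpla`). -/
def TrmStmt : Prop :=
  ∀ (w : Word) (p l : List ℕ) (a b : ℕ) (ov : ℕ → Bool), IsGauss w → Planar (shadow w) →
    (p ++ [a, b] ++ l).Nodup → 0 ∉ p ++ [a, b] ++ l → 1 ∉ p ++ [a, b] ++ l → Even p.length →
    Even l.length → ov a = ov b →
    kn (mul w (tg (p ++ [a, b] ++ l) ov)) = kn (mul w (tg (p ++ l) ov))

/-- **TRN** (easy-medium, uses TGG TPG).  Renaming of the crossings of the twist region.
Proof.  Let `f` be the map on `{0, 1} ∪ ls` with `f 0 = 0`, `f 1 = 1`, `f (ls[i]) = ls'[i]`; `σ` fixes the even labels and maps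
`2 n + 1` to `2 f n + 1`; `mul w (tg ls' ov') = relab σ (mul w (tg ls ov))`: `Step.rename`. -/
def TrnStmt : Prop :=
  ∀ (w : Word) (ls ls' : List ℕ) (ov ov' : ℕ → Bool), IsGauss w → Planar (shadow w) →
    ls.Nodup → ls'.Nodup → 0 ∉ ls → 1 ∉ ls → 0 ∉ ls' → 1 ∉ ls' → Even ls.length →
    ls.length = ls'.length → ov 0 = ov' 0 → ov 1 = ov' 1 →
    ls.map ov = ls'.map ov' → kn (mul w (tg ls ov)) = kn (mul w (tg ls' ov'))

/-- **TUN** (medium, uses TGG TPG).  Without clasp a twist word is trivial.
Proof.  `ov 0 = ov 1`: the letters `0, 1` form the pattern `(1, false, o), (3, true, o) ... (3, false, !o), (1, true, !o)` of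
`Step.r2b` in `mul w (tg ls ov)`; after this move the word is `mul w (seg ov true ls ++ (seg ov true ls).reverse.map bar)`, and the innermost
crossing is removed by `Step.r1`, by induction on the list from the right (planarity of the nested words:
TPG); at the end `mul w []`, a renaming of `w` (`Helper65_ZOL/UNK.lean`). -/
def TunStmt : Prop :=
  ∀ (w : Word) (ls : List ℕ) (ov : ℕ → Bool), IsGauss w → Planar (shadow w) →
    ls.Nodup → 0 ∉ ls → 1 ∉ ls → Even ls.length → ov 0 = ov 1 →
    kn (mul w (tg ls ov)) = kn w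

/-- **TSW** (medium, uses TFL TRM TRN TUN).  Crossing changes in the twist knots.
Proof.  (1) TFL, TUN.  (2) By induction on `card S`: changing the crossing `2 i + 2` of `tw N` makes it cancel with `2 i + 3`
(TRM); the remaining list has the same pattern `false, true, false, true, ...` as `tw (N - 1)` outside of the
other elements of `S`: TRN.  (Formulate the induction for arbitrary lists: for a list `ls` which is the concatenation of `N`
pairs with `ov = (false, true)` for `N - t` of them and `ov = (true, true)` for `t` of them, `kn (mul w (tg ls ov)) =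
kn (mul w (tw (N - t)))` if `ov 0 = true`, `ov 1 = false`.) -/
def TswStmt : Prop :=
  ∀ (w : Word) (N : ℕ) (S : Finset ℕ), IsGauss w → Planar (shadow w) →
    ((S ⊆ insert 0 ((range N).image (fun i => 2 * i + 2)) → 0 ∈ S →
      kn (mul w (flip S (tw N))) = kn w) ∧
    (S ⊆ (range N).image (fun i => 2 * i + 2) →
      kn (mul w (flip S (tw N))) = kn (mul w (tw (N - S.card)))))

/-- **FIM** (medium, uses TGG TPG TSW).  Differences of twist knots multiply the filtration.
Proof.  `FMulStmt` with `E = tw (r + j)`, `C' = insert 0 ((range r).image (fun i => 2 * i + 2))` of cardinality `r + 1` and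
`M' S = id` if `0 ∈ S`, `M' S = M (r + j - card S)` otherwise (TSW): `∑ S ⊆ C', (-1)^(card S) M' S x ∈ F (d + r + 1)`.  The terms
with `0 ∈ S` have sum `- ∑ S' ⊆ range r, (-1)^(card S') x = 0` (`r ≥ 1`), the others give
`∑ t ≤ r, (-1)^t choose r t M (r + j - t) x`; put `i = r - t`. -/
def FimStmt : Prop :=
  ∀ (M : ℕ → ZK →+ ZK),
    (∀ j w, IsGauss w → Planar (shadow w) → M j (kn w) = kn (mul w (tw j))) →
    ∀ r j d : ℕ, 1 ≤ r → ∀ x ∈ F d,
      (∑ i ∈ range (r + 1), ((-1 : ℤ) ^ (r - i) * (r.choose i : ℤ)) • M (i + j) x) ∈ F (d + r + 1)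

/-- **FID** (medium, uses TGG TPG TSW).  Multiplication by a twist knot is the identity on the graded pieces.
Proof.  `FChStmt` with `E = tw j`, `S = {0}`: `M j x - M' x ∈ F (d + 1)`, where `M' (kn w) = kn (mul w (flip {0} (tw j))) = kn w`
(TSW), `M' = id` (`H40.hom_ext`). -/
def FidStmt : Prop :=
  ∀ (M : ℕ → ZK →+ ZK),
    (∀ j w, IsGauss w → Planar (shadow w) → M j (kn w) = kn (mul w (tw j))) →
    ∀ j d : ℕ, ∀ x ∈ F d, M j x - x ∈ F (d + 1)

/-- **MUJ** (easy, uses TGG TPG).  The maps of knots.
Proof.  `H40.mulK H24.mgau H11.mpla H9.mstep (tw j) _`. -/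
def MujStmt : Prop :=
  ∃ μ : ℕ → Knot → Knot,
    (∀ j w, IsGauss w → Planar (shadow w) → lin (μ j) (kn w) = kn (mul w (tw j))) ∧
    ∀ j (D : Diagram), ∃ h : IsGauss (mul D.1 (tw j)) ∧ Planar (shadow (mul D.1 (tw j))),
      μ j (Quot.mk _ D) = Quot.mk _ (⟨mul D.1 (tw j), h⟩ : Diagram)

/-! ### Block E: exponents -/

/-- **EBX** (easy).  `bx m` is a homomorphism.
Proof.  The coefficient of `X ^ k` of the product is a sum over the antidiagonal, only multiples of `m` count;
Vandermonde `Ring.add_choose_eq`. -/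
def EbxStmt : Prop :=
  ∀ m : ℕ, 1 ≤ m → bx m 0 = 1 ∧ ∀ e e' : ℤ, bx m (e + e') = bx m e * bx m e'

/-- **EAD** (medium, uses EBX).  Additivity of the exponents.
Proof.  Induction on `m`: `st m f` has constant coefficient `1` and coefficients `1, ..., m` zero (`bx (m + 1) (-e) = 1 - e X ^ (m + 1) +
...`), and `st m (f * g) = st m f * st m g`; the coefficient of `X ^ (m + 1)` of a product of two such series is the
sum of the coefficients. -/
def EadStmt : Prop :=
  ∀ f g : PowerSeries ℤ, PowerSeries.constantCoeff f = 1 → PowerSeries.constantCoeff g = 1 →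
    ∀ m : ℕ, 1 ≤ m → ee m (f * g) = ee m f + ee m g

/-- **EDG** (medium).  The exponents are of finite type.
Proof.  Call `h : Finset ℕ → PowerSeries ℤ` good if `Deg k` of its `k`-th coefficient for all `k`.  Products of good functions are
good (`H25.deg1`; `Deg k` implies `Deg k'` for `k ≤ k'`; finite sums), and `bx m (- e)` is good if `e` has degree `m` (`H25.deg2`; the coefficient of
`X ^ (m j)` is `Ring.choose (- e) j`).  Induction on `m`: `st m ∘ h` is good. -/
def EdgStmt : Prop :=
  ∀ h : Finset ℕ → PowerSeries ℤ, (∀ k, Deg k (fun B => PowerSeries.coeff k (h B))) →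
    ∀ m : ℕ, 1 ≤ m → Deg m (fun B => ee m (h B))

/-- Integral combinations of the binomials `choose j r`, `1 ≤ r ≤ n`, with last coefficient `c`. -/
def BP (n : ℕ) (g : ℕ → ℤ) (c : ℤ) : Prop :=
  ∃ a : ℕ → ℤ, (∀ j, g j = ∑ r ∈ Icc 1 n, a r * (j.choose r : ℤ)) ∧ a n = c

/-- **BPC** (medium).  Characterisation.
Proof.  Integer valued polynomials: the coefficients `a r` are the iterated differences of `g` at `0`
(Newton, `Mathlib.Algebra.Group.ForwardDiff`), `a r = 0` for `r > n` as the degree is at most `n`, `a 0 = g 0 = 0`, and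
`a n = n ! * coeff n`. -/
def BpcStmt : Prop :=
  ∀ (n : ℕ) (g : ℕ → ℤ) (c : ℤ), 1 ≤ n → (BP n g c ↔ g 0 = 0 ∧ ∃ P : Polynomial ℚ,
    P.natDegree ≤ n ∧ (∀ j : ℕ, (g j : ℚ) = P.eval (j : ℚ)) ∧ P.coeff n * (n.factorial : ℚ) = c)

/-- **BCH** (medium, uses BPC).  Products and binomials.
Proof.  By BPC: product of polynomials; `j ! * Ring.choose (g) j = ∏ (g - i)`; degrees; values at `0`:
`Ring.choose 0 b = 0` for `b ≥ 1`.  A polynomial of degree at most `n' < n` has `coeff n = 0`. -/
def BchStmt : Prop :=
  (∀ (m n k : ℕ) (g h : ℕ → ℤ) (c d : ℤ), 1 ≤ m → 1 ≤ n → BP m g c → BP n h d → m + n < k →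
    BP k (fun j => g j * h j) 0) ∧
  (∀ (n b : ℕ) (g : ℕ → ℤ) (c : ℤ), 1 ≤ n → 1 ≤ b → BP n g c →
    ∃ c', BP (n * b) (fun j => Ring.choose (g j) b) c') ∧
  (∀ (n k : ℕ) (g : ℕ → ℤ) (c : ℤ), 1 ≤ n → BP n g c → n < k → BP k g 0)

/-- **ETW** (STRONG, uses EBX BCH QEX).  The exponents of the twist knots.
Proof.  Let `h j = qq 1 + (1 - qq 1) * qq j = 1 + X - X (1 + X) ^ j`; the coefficient of `X ^ k` is `- choose j (k - 1)` for
`k ≥ 2` and `0` for `k = 1`.  Call a family `f : ℕ → PowerSeries ℤ` with constant coefficient `1` good with leading terms `c_k` (`k ≥ 2`)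
if the coefficient of `X` is `0` and the coefficient of `X ^ k` satisfies `BP (k - 1) _ c_k` for `k ≥ 2`.  The
product of good families is good with leading terms `c_k + c'_k`: the products of coefficients `i` and `k - i` (both `≥ 2`) are
`BP (k - 2)`, or `0`, so they do not contribute to the leading term.  `j ↦ bx m (- e j)`, `m ≥ 2`, with `BP (m - 1) e c` is good with leading
terms `- c` for `k = m` and `0` for `k ≠ m`: the coefficient of `X ^ (m b)`, `b ≥ 2`, is `Ring.choose (- e j) b`: `BP ((m - 1) b)` and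
`(m - 1) b ≤ m b - 2`.  (`bx 1 0 = 1`.)  Induction on `m`: `st m (h j)` is good with leading terms those of `h` for
`k > m`, so `ee m (h j)` has leading term `-1` for `m ≥ 2`. -/
def EtwStmt : Prop :=
  ∀ m : ℕ, 2 ≤ m → BP (m - 1) (fun j => ee m (qq 1 + (1 - qq 1) * qq j)) (-1)

end Pool.Agent.VTP
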