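import Pool.Agent.VTP.StmtsA

/-!
# Squad VTP, block W: words

`PW w` is invariant under the Reidemeister moves between planar Gauss words, multiplicative, and its
coefficients are of finite type.  One statement per row; every docstring contains a complete proof.
Useful lemmas on `sub`, `labels`, `flip`, `relab`: `Pool.Agent.Helper40_ZOL.Kit` (namespace `Pool.Agent.ZOL`).
-/

set_option autoImplicit false

namespace Pool.Agent.VTP

open Finset Pool.Agent.ZOL

/-- **WBA** (easy).  Basic facts.
Proof.  `il` is symmetric because `{c, d} = {d, c}`; `sub {c, c} w` has length at most `2`; the first letter `l` with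
label `d` has `sub {d} w = [l, bar l]` (Gauss); `eps` and `sgn` are `1` or `-1` and `sgn l` is `eps` of the side if
`l` is over and its opposite if `l` is under. -/
def WbaStmt : Prop :=
  (∀ (w : Word) (c d : ℕ), il w c d → il w d c) ∧
  (∀ w : Word, IsGauss w → ∀ c, ¬ il w c c) ∧
  (∀ w : Word, IsGauss w → ∀ d ∈ labels w,
    (fstL w d).1 = d ∧ sub {d} w = [fstL w d, bar (fstL w d)] ∧
    (sg w d = 1 ∨ sg w d = -1) ∧ (sn w d = sg w d ∨ sn w d = - sg w d) ∧
    (sn w d = sg w d ↔ (fstL w d).2.2 = true))

/-- **WR1** (medium, uses PCG PR1 QEX WBA).  First move.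
Proof.  `labels` of the long word is `insert a (labels (u ++ v))`, `a ∉ labels (u ++ v)` (Gauss).  For `c, d ≠ a` the sub-words
on `{c, d}` and the first letters agree.  `sub {a, d}` is `x ++ [a, a] ++ y` with `x ++ y` over `d`: never
`a d a d` or `d a d a`, so `a` is interlaced with nothing. -/
def Wr1Stmt : Prop :=
  ∀ (u v : Word) (a : ℕ) (r o : Bool), IsGauss (u ++ [(a, r, o), (a, !r, !o)] ++ v) →
    PW (u ++ [(a, r, o), (a, !r, !o)] ++ v) = PW (u ++ v)

/-- **WR2** (medium, uses PCG PR2 QEX WBA).  Second move (both forms).
Proof.  As WR1, with two crossings.  `sg a = eps r`, `sg b = - eps r`; both first passages are over or both under, so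
`sn b = - sn a`.  For `d ∉ {a, b}`: `sub {a, d}` and `sub {b, d}` have the same shape (the letters `a`, `b` are adjacent in both places). -/
def Wr2Stmt : Prop :=
  (∀ (u v z : Word) (a b : ℕ) (r o : Bool),
    IsGauss (u ++ [(a, r, o), (b, !r, o)] ++ v ++ [(a, !r, !o), (b, r, !o)] ++ z) →
    PW (u ++ [(a, r, o), (b, !r, o)] ++ v ++ [(a, !r, !o), (b, r, !o)] ++ z) = PW (u ++ v ++ z)) ∧
  (∀ (u v z : Word) (a b : ℕ) (r o : Bool),
    IsGauss (u ++ [(a, r, o), (b, !r, o)] ++ v ++ [(b, r, !o), (a, !r, !o)] ++ z) →
    PW (u ++ [(a, r, o), (b, !r, o)] ++ v ++ [(b, r, !o), (a, !r, !o)] ++ z) = PW (u ++ v ++ z))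

/-- **CAN** (easy-medium, finite check).  The third move in canonical form.
Proof.  Six orders of the three strands and `16` values of `t, m, d, e`; in each case the common label of the first
two strands is that of `la` (its letter in the first strand), `lb` is the other letter of the first
strand, `lc` the other letter of the second strand; `decide`/`simp` (checked by computer in all `96` cases). -/
def CanStmt : Prop :=
  ∀ (s₁ s₂ s₃ : Word) (a b c : ℕ) (t m d e : Bool), a ≠ b → a ≠ c → b ≠ c →
    [s₁, s₂, s₃].Perm [topPair a b t m d e, midPair a c t m d e, botPair b c t m d e] →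
    ∃ (la lb lc : Letter) (α β γ : Bool), Can s₁ s₂ s₃ la lb lc α β γ

/-- The value at the letter `x` of an integral combination of the weights `wt a v`. -/
def lc (v : Shadow) (n : ℕ → ℤ) (x : ℕ × Bool) : ℤ :=
  ∑ a ∈ (v.map Prod.fst).toFinset, n a * wt a v x

/-- The letter `x` lies strictly between the two letters of `a`, and between the two letters of no
`c ∈ S` whose letters lie between those of `a`. -/
def incomp (v : Shadow) (S : Finset ℕ) (a : ℕ) (x : ℕ × Bool) : Prop :=
  x ∈ between a v ∧ ∀ c ∈ S, (∃ y ∈ between a v, y.1 = c) → x ∉ between c v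

/-- **PLS** (STRONG).  Twice the indicator function of a component of a smoothing is an integral
combination of the weights of the loops.
Proof.  Induction on `S` for all `a`.  `S = ∅`: `n` is `1` at `a` and `0` elsewhere (`wt`).  Step `insert c S`, `c ∉ S`:
`hN` says that `a` and `insert c S` are pairwise not interlaced, so the intervals of `a` and of the
elements of `insert c S` are nested or disjoint.  If the letters of `c` are not between those of `a`, or if they are between
the letters of some `c' ∈ S` whose letters are between those of `a`, take the combination `n` of `(S, a)`: the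
condition in `incomp` for `c` is void or implied.  Otherwise take `n - n'`, `n'` the combination of `(S, c)` (induction
hypothesis for `c`): for a letter `x` whose label is not in `insert c S ∪ {a}` the value is
`2 [incomp S a x] - 2 [incomp S c x]`; if `x` is not between the letters of `c` the second term is `0` and the first is
`2 [incomp (insert c S) a x]`; if `x` is between the letters of `c`, then both brackets are equal: an element `c'` of `S` between the
letters of `a` is either between the letters of `c`, or its interval is disjoint from that of `c`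
(not containing `x`), or it contains that of `c` (excluded).  Support: the combination of `(S, c)` is supported on the closed
interval of `c`, which is between the letters of `a`. -/
def PlsStmt : Prop :=
  ∀ (w : Word), IsGauss w → ∀ (S : Finset ℕ) (a : ℕ), a ∈ labels w → S ⊆ labels w → a ∉ S →
    NI (il w) (insert a S) →
    ∃ n : ℕ → ℤ,
      (∀ l ∈ w, l.1 ≠ a → l.1 ∉ S →
        (incomp (shadow w) S a (l.1, l.2.1) → lc (shadow w) n (l.1, l.2.1) = 2) ∧
        (¬ incomp (shadow w) S a (l.1, l.2.1) → lc (shadow w) n (l.1, l.2.1) = 0)) ∧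
      (∀ l ∈ w, lc (shadow w) n (l.1, l.2.1) ≠ 0 →
        l.1 = a ∨ (l.1, l.2.1) ∈ between a (shadow w))

/-- **PLJ** (medium-strong, uses PLS).  The signed number of crossings between two components vanishes.
Proof.  Let `n`, `n'` be the combinations of PLS for `(S, a)` and `(S, c)`.  By planarity (second condition, bilinear)
`∑ over the letters x of eps x * lc n x * lc n' (bar x) = 0`.  A letter `x` with a non zero term lies in the closed
interval of `a` and `bar x` in the closed interval of `c`; these are disjoint, `a` first.  So the label `d` of `x` is not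
`a`, `c` (both letters of `a` are in the interval of `a`), not in `S` (an element of `S` not interlaced with `a` has both
letters in the closed interval of `a` or none), it is interlaced with `a` and `c`, `x` is the first letter of `d`, and the
term is `4 * sg w d` if `x` is in the component of `a` and `bar x` in that of `c`, else `0`.  For a
`d ∉ S` interlaced with `a` and `c` this happens iff `d` is interlaced with no element of `S`: for `s ∈ S` inside `a`,
`d` is interlaced with `s` iff `x` is between the letters of `s`; the same for `c`; for `s` containing both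
intervals or disjoint from both there is no interlacement; an `s` whose interval contains that of `a` and is
disjoint from that of `c` (or conversely) is interlaced with all such `d`, and in this case the sum of all
`4 sg w d` is still `0`, but `D` is empty, also fine: treat this case first. -/
def PljStmt : Prop :=
  ∀ (w : Word) (a c : ℕ), IsGauss w → Planar (shadow w) →
    (sub {a, c} w).map Prod.fst = [a, a, c, c] →
    ∀ S ⊆ labels w, a ∉ S → c ∉ S → NI (il w) S → (∀ x ∈ S, ¬ il w a x ∧ ¬ il w c x) →
    ∀ D : Finset ℕ, (∀ d, d ∈ D ↔ d ∈ labels w ∧ d ∉ S ∧ (∀ x ∈ S, ¬ il w x d) ∧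
      il w a d ∧ il w c d) → ∑ d ∈ D, sg w d = 0

/-- **WR3** (STRONG, uses PCG PR3 PLJ QEX WBA).  Third move in canonical form.
Proof.  Let `a, b, c` be the labels of `la, lb, lc`, `V` the labels of `u₀ ++ u₁ ++ u₂ ++ u₃`.  The first letters of all crossings
are the same in both words (`la`, `lb` are in `s₁`, `lc` is in `s₂`), so `sg`, `sn` agree.  If at most one of `x, y` is in
`{a, b, c}`, then `sub {x, y}` of every pair has at most one letter and `sub {x, y}` of both words is the same.
`sub {a, b}` etc. are explicit: `il` left: `a b` iff `α`, `a c` iff not `β`, `b c` iff `γ`; right: the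
opposite.  For `d ∈ V` with `n₁, n₂` letters in `u₁`, `u₂`: `il a d` iff `n₁ = 1`, `il c d` iff `n₂ = 1`, `il b d` iff
`n₁ + n₂ = 1`: parity condition.  Condition `hJ` of PR3: apply PLJ to the left word if `β = true`, to the right word if
`β = false` (there the labels of `a, c` occur in the order `a a c c`); its set is `D`, and additionally `b` iff
`b` is interlaced with `a` and with `c`, i.e. iff `α = β = γ` (`b` is interlaced with no element of `S` by parity). -/
def Wr3Stmt : Prop :=
  ∀ (u₀ u₁ u₂ u₃ s₁ s₂ s₃ : Word) (la lb lc : Letter) (α β γ : Bool),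
    Can s₁ s₂ s₃ la lb lc α β γ →
    IsGauss (u₀ ++ s₁ ++ u₁ ++ s₂ ++ u₂ ++ s₃ ++ u₃) →
    Planar (shadow (u₀ ++ s₁ ++ u₁ ++ s₂ ++ u₂ ++ s₃ ++ u₃)) →
    IsGauss (u₀ ++ s₁.reverse ++ u₁ ++ s₂.reverse ++ u₂ ++ s₃.reverse ++ u₃) →
    Planar (shadow (u₀ ++ s₁.reverse ++ u₁ ++ s₂.reverse ++ u₂ ++ s₃.reverse ++ u₃)) →
    PW (u₀ ++ s₁ ++ u₁ ++ s₂ ++ u₂ ++ s₃ ++ u₃) =
      PW (u₀ ++ s₁.reverse ++ u₁ ++ s₂.reverse ++ u₂ ++ s₃.reverse ++ u₃)

/-- **WRN** (easy-medium, uses PIM).  Renaming. -/
def WrnStmt : Prop :=
  ∀ (w : Word) (τ : ℕ → ℕ), Set.InjOn τ (labels w : Set ℕ) → PW (relab τ w) = PW w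

/-- **WMU** (medium, uses PCG PIM PMU QEX).  Products.
Proof.  `labels (mul w E)` is the disjoint union of the doubles of `labels w` and of the `2 n + 1`, `n ∈ labels E`; the data
restrict to those of `w` and `E` (renamed), and a crossing of `w` is not interlaced with a crossing of
`E`.  PMU (evenness on the second factor), PIM for both factors. -/
def WmuStmt : Prop :=
  ∀ (w E : Word), IsGauss w → IsGauss E →
    (∀ S ⊆ labels E, NI (il E) S → Even (NN (labels E) (sg E) (sn E) (il E) S)) →
    PW (mul w E) = PW w * PW E

/-- **WDG** (easy-medium, uses PCG PDG QEX WBA).  The coefficients are of finite type.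
Proof.  `labels`, `sg`, `il` do not change under `flip B`, and `sn (flip B w) d = - sn w d` iff `d ∈ B` (for
`d ∈ labels w`). -/
def WdgStmt : Prop :=
  ∀ w : Word, IsGauss w → ∀ k, Deg k (fun B => PowerSeries.coeff k (PW (flip B w)))

/-- **KNP** (medium, uses WR1 WR2 CAN WR3 WRN).  The invariant of knots.
Proof.  `Quot.lift`; the labels `a, b, c` in a third move are distinct because the word is a Gauss word (each label
occurs twice, on two of the three strands). -/
def KnpStmt : Prop :=
  ∃ P : Knot → PowerSeries ℤ, ∀ D : Diagram, P (Quot.mk _ D) = PW D.1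

/-- **TWD** (medium).  The data of the twist knots.
Proof.  First letters: `0, 1, 2, ..., 2 N + 1`; sides `false, true, true, false, true, ...`; over: `0` and the odd
labels `≥ 3`.  Order of the second letters: `1, 0, 2 N + 1, ..., 2`. -/
def TwdStmt : Prop :=
  ∀ N : ℕ, labels (tw N) = range (2 * N + 2) ∧
    (∀ d ∈ range (2 * N + 2), sg (tw N) d = sT d ∧ sn (tw N) d = -1) ∧
    (∀ c ∈ range (2 * N + 2), ∀ d ∈ range (2 * N + 2), (il (tw N) c d ↔ iT c d))

/-- **TWV** (easy-medium, uses TWD TWS PCG QEX).  The value of the invariant on the twist knots. -/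
def TwvStmt : Prop :=
  ∀ N : ℕ, PW (tw N) = qq 1 + (1 - qq 1) * qq N ∧
    ∀ S ⊆ labels (tw N), NI (il (tw N)) S →
      Even (NN (labels (tw N)) (sg (tw N)) (sn (tw N)) (il (tw N)) S)

end Pool.Agent.VTP
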